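import Pool.Agent.H22.AN.TB3
import Pool.Agent.H80.AN.TargetsA

/-! The Hessian bound in all dimensions (MP_2697e3_an), part B, row LC1: the local inequality in the
frame of the optimal plane. -/

set_option autoImplicit false

namespace Pool.Agent.H35.AN

open MeasureTheory Metric Set Filter Topology Pool.Agent.H87.SN Pool.Agent.H87.SH Pool.Agent.H87.AX
open Pool.Agent.H22.AN
open scoped ContDiff RealInnerProductSpace ENNReal

theorem lc1_split {d : ℕ} (x : V d) : ‖x‖ ^ 2 = rho x ^ 2 + ‖zp x‖ ^ 2 := by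
  rw [EuclideanSpace.norm_sq_eq, EuclideanSpace.norm_sq_eq, Fin.sum_univ_succ, Fin.sum_univ_succ]
  have h1 : rho x ^ 2 = x 0 ^ 2 + x 1 ^ 2 := by
    unfold rho
    exact Real.sq_sqrt (by positivity)
  rw [h1]
  have h2 : ∀ i : Fin d, (zp x) i = x i.succ.succ := fun _ => rfl
  simp only [h2, Real.norm_eq_abs, sq_abs]
  have h3 : (Fin.succ (0 : Fin (d + 1))) = (1 : Fin (d + 2)) := rfl
  rw [h3]
  ring

theorem lc1_norm_of_zp {d : ℕ} {x : V d} (hx : zp x = 0) : ‖x‖ = rho x := by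
  have h1 := lc1_split x
  rw [hx, norm_zero] at h1
  have h2 : ‖x‖ ^ 2 = rho x ^ 2 := by rw [h1]; ring
  exact (sq_eq_sq₀ (norm_nonneg _) (Real.sqrt_nonneg _)).1 h2

theorem lc1_norm_le {d : ℕ} (x : V d) : ‖x‖ ≤ rho x + ‖zp x‖ := by
  have h1 := lc1_split x
  have h2 : (0 : ℝ) ≤ rho x := Real.sqrt_nonneg _
  have h3 := mul_nonneg h2 (norm_nonneg (zp x))
  refine abs_le_of_sq_le_sq' (a := ‖x‖) ?_ (by positivity) |>.2
  rw [h1]
  nlinarith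

theorem lc1_zp_le {d : ℕ} (x y : V d) (hy : zp y = 0) : ‖zp x‖ ≤ ‖x - y‖ := by
  have h1 : zp (x - y) = zp x - zp y := by
    ext i
    rfl
  have h2 := lc1_split (x - y)
  rw [h1, hy, sub_zero] at h2
  refine abs_le_of_sq_le_sq' (a := ‖zp x‖) ?_ (norm_nonneg _) |>.2
  rw [h2]
  nlinarith [sq_nonneg (rho (x - y))]

theorem lc1_norm_a {d : ℕ} {a : V d} {y0 y1 : ℝ} (h0 : a 0 = y0) (h1 : a 1 = y1) (h2 : zp a = 0) :
    ‖a‖ ≤ |y0| + |y1| := by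
  rw [lc1_norm_of_zp h2]
  unfold rho
  rw [h0, h1]
  refine Real.sqrt_le_iff.2 ⟨by positivity, ?_⟩
  have h3 := mul_nonneg (abs_nonneg y0) (abs_nonneg y1)
  have h4 := sq_abs y0
  have h5 := sq_abs y1
  nlinarith

theorem lc1_chain1 {d q : ℕ} {C₄ R ρ t : ℝ} {T₁ T₂ A V₀ : ℝ≥0∞} (hC₄ : 0 ≤ C₄) (hR : 0 < R)
    (hρ : 0 ≤ ρ) (hρR : ρ ≤ R) (ht : 0 < t) (hT : T₁ ≤ T₂)
    (hK : ENNReal.ofReal ((t ^ 2)⁻¹) * T₂ ≤ ENNReal.ofReal (C₄ * (1 / 4) ^ q) *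
      (ENNReal.ofReal ((R ^ d)⁻¹) * A ^ 2 + ENNReal.ofReal ((R ^ 2)⁻¹) * V₀)) :
    (ENNReal.ofReal (ρ ^ d / t ^ 2) * T₁) ^ (1 / 2 : ℝ) ≤
      ENNReal.ofReal (Real.sqrt C₄ * (1 / 2) ^ q) *
        (A + (ENNReal.ofReal (R ^ d / R ^ 2) * V₀) ^ (1 / 2 : ℝ)) := by
  have h1 : ENNReal.ofReal (ρ ^ d / t ^ 2) * T₁ ≤ ENNReal.ofReal (C₄ * (1 / 4) ^ q) *
      (A ^ 2 + ENNReal.ofReal (R ^ d / R ^ 2) * V₀) := by
    calc ENNReal.ofReal (ρ ^ d / t ^ 2) * T₁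
        ≤ (ENNReal.ofReal (R ^ d) * ENNReal.ofReal ((t ^ 2)⁻¹)) * T₂ := by
          refine mul_le_mul' ?_ hT
          rw [← ENNReal.ofReal_mul (by positivity)]
          refine ENNReal.ofReal_le_ofReal ?_
          rw [div_eq_mul_inv]
          exact mul_le_mul_of_nonneg_right (pow_le_pow_left₀ hρ hρR d) (by positivity)
      _ = ENNReal.ofReal (R ^ d) * (ENNReal.ofReal ((t ^ 2)⁻¹) * T₂) := mul_assoc _ _ _
      _ ≤ ENNReal.ofReal (R ^ d) * (ENNReal.ofReal (C₄ * (1 / 4) ^ q) *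
          (ENNReal.ofReal ((R ^ d)⁻¹) * A ^ 2 + ENNReal.ofReal ((R ^ 2)⁻¹) * V₀)) :=
          mul_le_mul' le_rfl hK
      _ = ENNReal.ofReal (C₄ * (1 / 4) ^ q) *
          ((ENNReal.ofReal (R ^ d) * ENNReal.ofReal ((R ^ d)⁻¹)) * A ^ 2 +
            (ENNReal.ofReal (R ^ d) * ENNReal.ofReal ((R ^ 2)⁻¹)) * V₀) := by ring
      _ = _ := by
          rw [← ENNReal.ofReal_mul (by positivity), ← ENNReal.ofReal_mul (by positivity),
            mul_inv_cancel₀ (by positivity), ENNReal.ofReal_one, one_mul, ← div_eq_mul_inv]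
  have h2 : (A ^ 2) ^ (1 / 2 : ℝ) = A := by
    rw [← ENNReal.rpow_natCast, ← ENNReal.rpow_mul]
    norm_num
  have h3 : (ENNReal.ofReal (C₄ * (1 / 4) ^ q)) ^ (1 / 2 : ℝ) =
      ENNReal.ofReal (Real.sqrt C₄ * (1 / 2) ^ q) := by
    rw [ENNReal.ofReal_rpow_of_nonneg (by positivity) (by norm_num), ← Real.sqrt_eq_rpow,
      Real.sqrt_mul hC₄]
    congr 2
    rw [show ((1 : ℝ) / 4) ^ q = ((1 / 2) ^ q) ^ 2 by
      rw [← pow_mul, mul_comm, pow_mul]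
      norm_num]
    exact Real.sqrt_sq (by positivity)
  calc (ENNReal.ofReal (ρ ^ d / t ^ 2) * T₁) ^ (1 / 2 : ℝ)
      ≤ (ENNReal.ofReal (C₄ * (1 / 4) ^ q) *
        (A ^ 2 + ENNReal.ofReal (R ^ d / R ^ 2) * V₀)) ^ (1 / 2 : ℝ) :=
        ENNReal.rpow_le_rpow h1 (by norm_num)
    _ = ENNReal.ofReal (Real.sqrt C₄ * (1 / 2) ^ q) *
        (A ^ 2 + ENNReal.ofReal (R ^ d / R ^ 2) * V₀) ^ (1 / 2 : ℝ) := by
        rw [ENNReal.mul_rpow_of_nonneg _ _ (by norm_num), h3]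
    _ ≤ _ := by
        refine mul_le_mul' le_rfl ?_
        refine (ENNReal.rpow_add_le_add_rpow _ _ (by norm_num) (by norm_num)).trans ?_
        rw [h2]

theorem lc1_chain2 {d : ℕ} {C₁ C₂ R h J s : ℝ} {A X B₁' B₂' B₁ B₂ : ℝ≥0∞} (hC₁ : 1 ≤ C₁)
    (hC₂ : 1 ≤ C₂) (hR : 0 < R) (hs : 0 ≤ s)
    (h1 : A ≤ ENNReal.ofReal C₂ * (B₁' + ENNReal.ofReal (R ^ d * J / h)))
    (h2 : X ≤ ENNReal.ofReal C₂ * (B₂' + ENNReal.ofReal (R ^ d * J / R)))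
    (hB1 : B₁' ≤ B₁) (hB2 : B₂' ≤ B₂) (hJ : J / h ≤ 5 * C₁ * s) (hJR : J / R ≤ 5 * C₁ * s) :
    A + X ≤ ENNReal.ofReal (10 * C₁ * C₂) * (B₁ + B₂ + ENNReal.ofReal (R ^ d * s)) := by
  have h3 : ENNReal.ofReal (R ^ d * J / h) ≤ ENNReal.ofReal (5 * C₁) * ENNReal.ofReal (R ^ d * s) := by
    rw [← ENNReal.ofReal_mul (by positivity)]
    refine ENNReal.ofReal_le_ofReal ?_
    calc R ^ d * J / h = R ^ d * (J / h) := by ring
      _ ≤ R ^ d * (5 * C₁ * s) := mul_le_mul_of_nonneg_left hJ (by positivity)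
      _ = _ := by ring
  have h4 : ENNReal.ofReal (R ^ d * J / R) ≤ ENNReal.ofReal (5 * C₁) * ENNReal.ofReal (R ^ d * s) := by
    rw [← ENNReal.ofReal_mul (by positivity)]
    refine ENNReal.ofReal_le_ofReal ?_
    calc R ^ d * J / R = R ^ d * (J / R) := by ring
      _ ≤ R ^ d * (5 * C₁ * s) := mul_le_mul_of_nonneg_left hJR (by positivity)
      _ = _ := by ring
  have h5 : (1 : ℝ≥0∞) ≤ ENNReal.ofReal (10 * C₁) := by
    rw [ENNReal.one_le_ofReal]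
    linarith
  have h6 : ENNReal.ofReal (5 * C₁) + ENNReal.ofReal (5 * C₁) = ENNReal.ofReal (10 * C₁) := by
    rw [← ENNReal.ofReal_add (by positivity) (by positivity)]
    congr 1
    ring
  calc A + X ≤ ENNReal.ofReal C₂ * (B₁ + ENNReal.ofReal (5 * C₁) * ENNReal.ofReal (R ^ d * s)) +
        ENNReal.ofReal C₂ * (B₂ + ENNReal.ofReal (5 * C₁) * ENNReal.ofReal (R ^ d * s)) :=
        add_le_add (h1.trans (mul_le_mul' le_rfl (add_le_add hB1 h3)))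
          (h2.trans (mul_le_mul' le_rfl (add_le_add hB2 h4)))
    _ = ENNReal.ofReal C₂ * (1 * B₁ + 1 * B₂ + (ENNReal.ofReal (5 * C₁) + ENNReal.ofReal (5 * C₁)) *
        ENNReal.ofReal (R ^ d * s)) := by ring
    _ ≤ ENNReal.ofReal C₂ * (ENNReal.ofReal (10 * C₁) * B₁ + ENNReal.ofReal (10 * C₁) * B₂ +
        ENNReal.ofReal (10 * C₁) * ENNReal.ofReal (R ^ d * s)) := by
        rw [h6]
        exact mul_le_mul' le_rfl (add_le_add (add_le_add (mul_le_mul' h5 le_rfl)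
          (mul_le_mul' h5 le_rfl)) le_rfl)
    _ = (ENNReal.ofReal (10 * C₁) * ENNReal.ofReal C₂) * (B₁ + B₂ + ENNReal.ofReal (R ^ d * s)) := by
        ring
    _ = _ := by rw [← ENNReal.ofReal_mul (by positivity)]

theorem lc1_scales {d q : ℕ} (hd : 1 ≤ d) (hq : 6 ≤ q) {R σ : ℝ}
    (hR : R = (1 / 2) ^ ((8 * d + 6) * q)) (hσ : σ = shq q) :
    0 < R ∧ R ≤ 1 / 4096 ∧ 0 < σ ∧ σ ≤ 1 / 4096 ∧ 8 * R ≤ σ := by
  have h1 : 0 < R := by rw [hR]; positivity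
  have h2 : 0 < σ := by rw [hσ]; unfold shq; positivity
  have h3 : σ ≤ 1 / 4096 := by
    rw [hσ]
    unfold shq
    calc ((1 : ℝ) / 2) ^ (2 * q) ≤ (1 / 2) ^ 12 :=
          pow_le_pow_of_le_one (by norm_num) (by norm_num) (by omega)
      _ = _ := by norm_num
  have h4 : R ≤ σ / 8 := by
    rw [hR, hσ]
    unfold shq
    calc ((1 : ℝ) / 2) ^ ((8 * d + 6) * q) ≤ (1 / 2) ^ (2 * q + 3) := by
          refine pow_le_pow_of_le_one (by norm_num) (by norm_num) ?_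
          nlinarith
      _ = _ := by rw [pow_add]; norm_num; ring
  exact ⟨h1, by linarith, h2, h3, by linarith⟩

theorem lc1_delta {C₃ δ₀ δK e₀ : ℝ} (hC₃ : 1 ≤ C₃) (h0 : 0 < δ₀) (hK : 0 < δK) (he : 0 < e₀) :
    ∃ δ : ℝ, 0 < δ ∧ δ ≤ δ₀ ∧ C₃ * δ ^ 2 < e₀ ∧ 4 * δ ^ 2 ≤ δK ^ 2 := by
  refine ⟨min δ₀ (min (δK / 2) (min 1 (e₀ / (2 * C₃)))), ?_, min_le_left _ _, ?_, ?_⟩
  · positivity
  · obtain ⟨δ, hδ⟩ : ∃ δ : ℝ, δ = min δ₀ (min (δK / 2) (min 1 (e₀ / (2 * C₃)))) := ⟨_, rfl⟩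
    rw [← hδ]
    have h1 : 0 < δ := by rw [hδ]; positivity
    have h2 : δ ≤ 1 := by
      rw [hδ]
      exact (min_le_right _ _).trans ((min_le_right _ _).trans (min_le_left _ _))
    have h3 : δ ≤ e₀ / (2 * C₃) := by
      rw [hδ]
      exact (min_le_right _ _).trans ((min_le_right _ _).trans (min_le_right _ _))
    have h4 : C₃ * δ ≤ e₀ / 2 := by
      rw [le_div_iff₀ (by positivity)] at h3
      linarith
    have h5 : C₃ * δ ^ 2 ≤ C₃ * δ := by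
      refine mul_le_mul_of_nonneg_left ?_ (by linarith)
      nlinarith
    linarith
  · obtain ⟨δ, hδ⟩ : ∃ δ : ℝ, δ = min δ₀ (min (δK / 2) (min 1 (e₀ / (2 * C₃)))) := ⟨_, rfl⟩
    rw [← hδ]
    have h1 : 0 < δ := by rw [hδ]; positivity
    have h2 : δ ≤ δK / 2 := by
      rw [hδ]
      exact (min_le_right _ _).trans (min_le_left _ _)
    nlinarith

theorem lc1_v {C₁ C₂ h v₀ : ℝ} (d : ℕ) (hC₁ : 1 ≤ C₁) (hC₂ : 1 ≤ C₂) (hh : 0 < h) (h0 : 0 < v₀) :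
    ∃ v : ℝ, 0 < v ∧ v ≤ v₀ ∧ C₁ * Real.sqrt v ≤ h / (1000 * C₂) ∧ Real.sqrt v ≤ h ^ (d + 6) := by
  obtain ⟨s, hs⟩ : ∃ s : ℝ, s = min (Real.sqrt v₀) (min (h / (1000 * C₂) / C₁) (h ^ (d + 6))) :=
    ⟨_, rfl⟩
  have h1 : 0 < s := by
    rw [hs]
    have := Real.sqrt_pos.2 h0
    positivity
  have h2 : s ≤ Real.sqrt v₀ := by rw [hs]; exact min_le_left _ _
  have h3 : s ≤ h / (1000 * C₂) / C₁ := by
    rw [hs]
    exact (min_le_right _ _).trans (min_le_left _ _)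
  have h4 : s ≤ h ^ (d + 6) := by
    rw [hs]
    exact (min_le_right _ _).trans (min_le_right _ _)
  have h5 : Real.sqrt (s ^ 2) = s := Real.sqrt_sq h1.le
  refine ⟨s ^ 2, by positivity, ?_, ?_, ?_⟩
  · calc s ^ 2 ≤ Real.sqrt v₀ ^ 2 := pow_le_pow_left₀ h1.le h2 2
      _ = v₀ := Real.sq_sqrt h0.le
  · rw [h5]
    rw [le_div_iff₀ (by positivity)] at h3
    linarith
  · rw [h5]
    exact h4

theorem lc1_J {d : ℕ} {C₁ R V s : ℝ} (hC₁ : 1 ≤ C₁) (hR : 0 < R) (hR1 : R ≤ 1) (hs : 0 ≤ s)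
    (hV : V = s * s) (hsh : s ≤ (R * R) ^ (d + 6)) :
    0 ≤ C₁ / (R * R) ^ (d + 5) * V + C₁ * (2 * R) ^ 2 * s ∧
    (C₁ / (R * R) ^ (d + 5) * V + C₁ * (2 * R) ^ 2 * s) / (R * R) ≤ 5 * C₁ * s ∧
    (C₁ / (R * R) ^ (d + 5) * V + C₁ * (2 * R) ^ 2 * s) / R ≤ 5 * C₁ * s := by
  obtain ⟨J, hJ⟩ : ∃ J : ℝ, J = C₁ / (R * R) ^ (d + 5) * V + C₁ * (2 * R) ^ 2 * s := ⟨_, rfl⟩
  rw [← hJ]
  have h0 : 0 ≤ J := by
    rw [hJ, hV]
    positivity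
  have h1 : J ≤ 5 * C₁ * s * (R * R) := by
    have h2 : C₁ / (R * R) ^ (d + 5) * V ≤ C₁ * s * (R * R) := by
      rw [hV]
      calc C₁ / (R * R) ^ (d + 5) * (s * s) ≤ C₁ / (R * R) ^ (d + 5) * (s * (R * R) ^ (d + 6)) := by
            gcongr
        _ = C₁ * s * (R * R) := by
            rw [pow_succ (R * R) (d + 5)]
            field_simp
    have h3 : C₁ * (2 * R) ^ 2 * s = 4 * (C₁ * s * (R * R)) := by ring
    rw [hJ, h3]
    linarith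
  have h4 : J / (R * R) ≤ 5 * C₁ * s := by
    rw [div_le_iff₀ (by positivity)]
    exact h1
  refine ⟨h0, h4, ?_⟩
  refine le_trans ?_ h4
  refine div_le_div_of_nonneg_left h0 (by positivity) ?_
  nlinarith

/-- the geometry of the cell -/
theorem lc1_geo {d : ℕ} {R σ ε₁ : ℝ} {x₁ a w : V d} {D : ℝ} (hR0 : 0 < R) (hR1 : R ≤ 1 / 4096)
    (hσ1 : σ ≤ 1 / 4096) (he : ε₁ ≤ R * R / 1000) (hzx : zp x₁ = 0) (ha : ‖a‖ ≤ ε₁)
    (hw : w ∈ ball x₁ (R / 256)) (hD : D < (2 * (σ * R)) ^ 2) (hσ0 : 0 < σ)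
    (hrw : rho w ≤ 3 / 2 * Real.sqrt D + ε₁) : rho x₁ ≤ 1 / 64 ∧ ‖x₁ - a‖ ≤ R / 50 := by
  have h1 : Real.sqrt D ≤ 2 * (σ * R) := by
    rw [← Real.sqrt_sq (by positivity : 0 ≤ 2 * (σ * R))]
    exact Real.sqrt_le_sqrt hD.le
  have h2 : σ * R ≤ 1 / 4096 * R := mul_le_mul_of_nonneg_right hσ1 hR0.le
  have h3 : ε₁ ≤ R / 1000 / 4096 := by
    have h4 : R * R ≤ R * (1 / 4096) := mul_le_mul_of_nonneg_left hR1 hR0.le
    linarith
  rw [mem_ball, dist_eq_norm] at hw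
  have h5 : ‖w‖ ≤ rho w + R / 256 := (lc1_norm_le w).trans (by linarith [lc1_zp_le w x₁ hzx])
  have h6 : ‖x₁‖ ≤ ‖w‖ + ‖w - x₁‖ := by
    have h7 := norm_sub_le w (w - x₁)
    rwa [sub_sub_cancel] at h7
  have h8 : ‖x₁‖ ≤ R / 100 := by linarith
  refine ⟨?_, ?_⟩
  · rw [← lc1_norm_of_zp hzx]
    linarith
  · have h9 := norm_sub_le x₁ a
    linarith

/-- a density below the threshold forces the point away from the plane -/
theorem lc1_away {D t ε₁ ρ : ℝ} (ht : 0 < t) (hρ : t / 32 ≤ ρ) (h1 : ρ ≤ 3 / 2 * Real.sqrt D + ε₁)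
    (he : ε₁ ≤ t / 128) (hD : 0 ≤ D) : (t / 64) ^ 2 ≤ D := by
  have h2 : t / 64 ≤ Real.sqrt D := by linarith
  calc (t / 64) ^ 2 ≤ Real.sqrt D ^ 2 := pow_le_pow_left₀ (by positivity) h2 2
    _ = D := Real.sq_sqrt hD

theorem lc1_V2 {d m : ℕ} (G : V d → V d →L[ℝ] E m) (R : ℝ) : 0 ≤ V2 G R := by
  unfold V2
  refine integral_nonneg fun x => mul_nonneg (sq_nonneg _) ?_
  unfold nsq
  exact Finset.sum_nonneg fun i _ => sq_nonneg _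

/-- the set on the left side of the second inequality is measurable -/
theorem lc1_meas {d m : ℕ} (G : V d → V d →L[ℝ] E m) (x₁ : V d) (ρ t t' e₀ er : ℝ)
    (hc : ∀ r : ℝ, Continuous (fun x => (mu G).real (ball x r))) :
    MeasurableSet {x : V d | x ∈ ball x₁ ρ ∧ e₀ ≤ th G x t ∧ th G x t' < 2 * er} := by
  have h1 : ∀ r : ℝ, Measurable (fun x => th G x r) := by
    intro r
    unfold th
    exact ((hc r).div_const _).measurable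
  exact measurableSet_ball.inter ((measurableSet_le measurable_const (h1 t)).inter
    (measurableSet_lt (h1 t') measurable_const))

theorem pf_LC1 (hF1C : T_F1C) (hLQA : T_LQA) (hLGE : T_LGE) (hKPL : T_KPL) (hTCS : T_TCS)
    (hFMB : T_FMB) (hLIN : T_LIN) (hMUF : T_MUF) : T_LC1 := by
  intro d m L Λ ε er e e₀ hd hL hΛ hε her hEP he hee he₀
  obtain ⟨c, C₁, hc, hC₁, hF⟩ := hF1C d m L Λ ε er e₀ hd hL hΛ hε her hEP he₀
  obtain ⟨C₂, hC₂, hQ⟩ := hLQA d Λ c hΛ hc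
  obtain ⟨C₃, hC₃, hG⟩ := hLGE d
  obtain ⟨δK, C₄, hδK, hC₄, hK⟩ := hKPL d L hd hL
  obtain ⟨C₅, hC₅, hT⟩ := hTCS d
  obtain ⟨C₆, hC₆, hM⟩ := hFMB d
  refine ⟨C₆ * (C₅ * (Real.sqrt C₄ * (10 * C₁ * C₂))), by positivity, fun q hq => ?_⟩
  obtain ⟨R, hR⟩ : ∃ R : ℝ, R = (1 / 2) ^ ((8 * d + 6) * q) := ⟨_, rfl⟩
  obtain ⟨σ, hσ⟩ : ∃ σ : ℝ, σ = shq q := ⟨_, rfl⟩
  have hhR : hhq d q = R := hR.symm
  obtain ⟨hR0, hR1, hσ0, hσ1, hRσ⟩ := lc1_scales hd hq hR hσ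
  have hRR : R * R ≤ R * (1 / 4096) := mul_le_mul_of_nonneg_left hR1 hR0.le
  have hRR0 : 0 < R * R := mul_pos hR0 hR0
  obtain ⟨r₁, δ₀, v₀, hr0, hr1, hδ0, hv0, hFF⟩ := hF (R * R) hRR0 (by linarith)
  obtain ⟨δ, hδ, hδδ, hδe, hδ2⟩ := lc1_delta hC₃ hδ0 hδK he₀
  obtain ⟨v, hv, hvv, hv1, hv2⟩ := lc1_v d hC₁ hC₂ hRR0 hv0
  refine ⟨(8 * d + 6) * q, r₁, δ, v, by nlinarith, hr0, hδ, hv, ?_⟩
  intro U u G x₁ hF1
  simp only [R1, ← hR, ← hσ, hhR]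
  obtain ⟨s, hs⟩ : ∃ s : ℝ, s = Real.sqrt (V2 G 1) := ⟨_, rfl⟩
  have hs0 : 0 ≤ s := by rw [hs]; exact Real.sqrt_nonneg _
  have hV : V2 G 1 = s * s := by
    rw [hs]
    exact (Real.mul_self_sqrt (lc1_V2 G 1)).symm
  have hsv : s ≤ Real.sqrt v := by
    rw [hs]
    exact Real.sqrt_le_sqrt hF1.v2
  have hsm := hF1.sm
  have hF1' : F1 d m L Λ ε r₁ δ₀ e₀ v₀ U u G x₁ :=
    ⟨hsm, fun x hx hr => ⟨(hF1.nk x hx hr).1,
      (hF1.nk x hx hr).2.trans (pow_le_pow_left₀ hδ.le hδδ 2)⟩, hF1.v2.trans hvv, hF1.zx, hF1.rx,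
      hF1.ch⟩
  obtain ⟨hq1, hq2⟩ := hFF U u G x₁ hF1'
  obtain ⟨mb, y0, y1, s0, s1, hmb, hys, hCen⟩ := hq2 (2 * R) (by positivity) (by linarith)
  rw [← hs] at hys hCen
  obtain ⟨hJ0, hJ1, hJ2⟩ := lc1_J (d := d) hC₁ hR0 (by linarith) hs0 hV (hsv.trans hv2)
  obtain ⟨J, hJ⟩ : ∃ J : ℝ, J = C₁ / (R * R) ^ (d + 5) * V2 G 1 + C₁ * (2 * R) ^ 2 * s := ⟨_, rfl⟩
  rw [← hJ] at hJ0 hJ1 hJ2 hCen
  obtain ⟨ε₁, hε₁⟩ : ∃ ε₁ : ℝ, ε₁ = C₁ * s := ⟨_, rfl⟩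
  rw [← hε₁] at hys
  have hε0 : 0 ≤ ε₁ := by rw [hε₁]; positivity
  have hε2 : ε₁ ≤ R * R / (1000 * C₂) := by
    rw [hε₁]
    exact (mul_le_mul_of_nonneg_left hsv (by linarith)).trans hv1
  have hε3 : ε₁ ≤ R * R / 1000 :=
    hε2.trans (div_le_div_of_nonneg_left hRR0.le (by norm_num) (by linarith))
  have hε4 : ε₁ ≤ R * R / C₂ :=
    hε2.trans (div_le_div_of_nonneg_left hRR0.le (by linarith) (by linarith))
  have hys' := hys
  have ab0 := abs_nonneg y0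
  have ab1 := abs_nonneg y1
  have ab2 := norm_nonneg s0
  have ab3 := norm_nonneg s1
  obtain ⟨a, ν₁, ν₂, hON, ha0, ha1, hza, hdl⟩ := hLIN d y0 y1 s0 s1 (by linarith) (by linarith)
  have ha : ‖a‖ ≤ ε₁ := (lc1_norm_a ha0 ha1 hza).trans (by linarith)
  obtain ⟨g1, g2, g3⟩ := hG m L Λ ε U u G hsm r₁ δ ε₁ y0 y1 s0 s1 a ν₁ ν₂ hr0 hε0 hON hF1.nk hys
    (fun x => (hdl x).2)
  have hdl0 : ∀ x : V d, 0 ≤ dl a ν₁ ν₂ x := fun x => by unfold dl; positivity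
  have hx₁ : ‖x₁‖ ≤ 1 / 8 := by
    rw [lc1_norm_of_zp hF1.zx]
    exact hF1.rx
  have htR : R * R ≤ σ * R / 8 := by
    have h1 := mul_le_mul_of_nonneg_right hRσ hR0.le
    linarith
  have ht1 : σ * R ≤ 1 / 4096 * R := mul_le_mul_of_nonneg_right hσ1 hR0.le
  have ht0 : 0 < σ * R := mul_pos hσ0 hR0
  have hball : ∀ x ∈ ball x₁ (R / 256), x ∈ ball (0 : V d) (1 / 2) := by
    intro x hx
    rw [mem_ball, dist_eq_norm] at hx
    rw [mem_ball_zero_iff]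
    have h1 := norm_add_le (x - x₁) x₁
    rw [sub_add_cancel] at h1
    linarith
  have hball1 : ∀ x ∈ ball (0 : V d) (1 / 2), x ∈ ball (0 : V d) 1 := fun x hx =>
    ball_subset_ball (by norm_num) hx
  have hnear : ∀ x ∈ ball x₁ (R / 256), e₀ ≤ th G x (σ * R) → dl a ν₁ ν₂ x < (2 * (σ * R)) ^ 2 := by
    intro x hx hx2
    by_contra h1
    have h2 := g2 (σ * R) (by linarith) (by linarith) (by linarith) x (hball x hx) (not_lt.1 h1)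
    linarith
  rcases Set.eq_empty_or_nonempty {x : V d | x ∈ ball x₁ (R / 256) ∧ e₀ ≤ th G x (σ * R)} with
    hS | ⟨w, hw, hw2⟩
  · exact Or.inl hS
  right
  obtain ⟨hx64, hxa⟩ := lc1_geo (σ := σ) hR0 hR1 hσ1 hε3 hF1.zx ha hw (hnear w hw hw2) hσ0
    (g1 w (hball1 w (hball w hw))).2
  -- the chain
  have hKK := hK m Λ ε U u G hsm q a ν₁ ν₂ R hq hON hR0 (by linarith) (by linarith)
  rw [hhR, ← hσ] at hKK
  have hKK2 := hKK (by
    intro x hx hx2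
    have hx3 : x ∈ ball (0 : V d) (1 / 2) := by
      rw [mem_ball, dist_eq_norm] at hx
      rw [mem_ball_zero_iff]
      have h1 := norm_add_le (x - a) a
      rw [sub_add_cancel] at h1
      linarith
    obtain ⟨h1, h2⟩ := g3 (R * R) (by linarith) (by linarith) x hx3 hx2
    exact ⟨h1, h2.trans hδ2⟩)
  have hTT := hT m G hsm.gd.memG a ν₁ ν₂ x₁ (σ * R) (R / 256) hON ht0 (by linarith)
  have hsub : (∫⁻ x in {x : V d | x ∈ ball x₁ (2 * (R / 256)) ∧ dl a ν₁ ν₂ x < (10 * (σ * R)) ^ 2},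
      ENNReal.ofReal (dl a ν₁ ν₂ x) ∂(mu G)) ≤ ∫⁻ x in {x : V d | x ∈ ball a (R / 16) ∧
      dl a ν₁ ν₂ x < (10 * (σ * R)) ^ 2}, ENNReal.ofReal (dl a ν₁ ν₂ x) ∂(mu G) := by
    refine lintegral_mono_set fun x hx => ⟨?_, hx.2⟩
    have h1 := hx.1
    rw [mem_ball, dist_eq_norm] at h1 ⊢
    have h2 := norm_add_le (x - x₁) (x₁ - a)
    rw [sub_add_sub_cancel] at h2
    linarith
  have hch := lc1_chain1 (d := d) (q := q) hC₄ hR0 (by positivity : 0 ≤ R / 256) (by linarith) ht0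
    hsub hKK2
  obtain ⟨hQ1, hQ2⟩ := hQ m G hsm.gd (R * R) R J mb y0 y1 (2 * er) s0 s1 a ν₁ ν₂ hRR0 (by linarith)
    (by linarith) hJ0 hmb (hys.trans hε4) hCen hON ha0 ha1 hza (fun x => (hdl x).2) hq1
  have hsub2 : ∀ t : ℝ, (∫⁻ x in {x : V d | x ∈ ball a (R / 2) ∧ 2 * er ≤ th G x t}, bs G x t) ≤
      ∫⁻ x in {x : V d | x ∈ ball x₁ R ∧ e ≤ th G x t}, bs G x t := by
    intro t
    refine lintegral_mono_set fun x hx => ⟨?_, hee.trans hx.2⟩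
    have h1 := hx.1
    rw [mem_ball, dist_eq_norm] at h1 ⊢
    have h2 := norm_sub_le (x - a) (x₁ - a)
    rw [sub_sub_sub_cancel_right] at h2
    linarith
  have hch2 := lc1_chain2 (d := d) hC₁ hC₂ hR0 hs0 hQ1 hQ2
    (mul_le_mul' le_rfl (hsub2 (R * R))) (mul_le_mul' le_rfl (hsub2 R)) hJ1 hJ2
  rw [hs] at hch2
  -- the bound of the integral of the square root of the second moment
  have hfin : ENNReal.ofReal (((σ * R) ^ 2)⁻¹) * (∫⁻ x in {x : V d | x ∈ ball x₁ (R / 256) ∧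
      dl a ν₁ ν₂ x < (2 * (σ * R)) ^ 2}, Fm G a ν₁ ν₂ (σ * R) x) ≤
      ENNReal.ofReal (C₅ * (Real.sqrt C₄ * (10 * C₁ * C₂)) * (1 / 2) ^ q) *
      (ENNReal.ofReal (((R * R) ^ 2)⁻¹) *
        (∫⁻ x in {x : V d | x ∈ ball x₁ R ∧ e ≤ th G x (R * R)}, bs G x (R * R)) +
      ENNReal.ofReal ((R ^ 2)⁻¹) *
        (∫⁻ x in {x : V d | x ∈ ball x₁ R ∧ e ≤ th G x R}, bs G x R) +
      ENNReal.ofReal (R ^ d * Real.sqrt (V2 G 1))) := by
    refine hTT.trans ((mul_le_mul' le_rfl (hch.trans (mul_le_mul' le_rfl hch2))).trans_eq ?_)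
    rw [← mul_assoc, ← mul_assoc, ← ENNReal.ofReal_mul hC₅, ← ENNReal.ofReal_mul (by positivity)]
    congr 2
    ring
  refine ⟨hx64, fun x hx hx2 => hq1 x (1 / 4) (by linarith) (by norm_num) (by linarith)
    (by linarith), ?_, ?_⟩
  · refine (mul_le_mul' le_rfl ?_).trans (hfin.trans (mul_le_mul' ?_ le_rfl))
    · refine (lintegral_mono fun x => (hM m G hsm.gd.memG a ν₁ ν₂ x (σ * R) hON ht0).1).trans ?_
      exact lintegral_mono_set fun x hx => ⟨hx.1, hnear x hx.1 hx.2⟩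
    · refine ENNReal.ofReal_le_ofReal (mul_le_mul_of_nonneg_right ?_ (by positivity))
      exact le_mul_of_one_le_left (by positivity) hC₆
  · have hmeas := lc1_meas G x₁ (R / 256) (σ * R) (σ * R / 8) e₀ er
      (hMUF d m G hsm.gd.memG).2.2.2.2.2
    have h1 : (∫⁻ x in {x : V d | x ∈ ball x₁ (R / 256) ∧ e₀ ≤ th G x (σ * R) ∧
        th G x (σ * R / 8) < 2 * er}, ENNReal.ofReal (Real.sqrt (th G x (σ * R / 128)))) ≤
        ENNReal.ofReal C₆ * (∫⁻ x in {x : V d | x ∈ ball x₁ (R / 256) ∧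
          dl a ν₁ ν₂ x < (2 * (σ * R)) ^ 2}, Fm G a ν₁ ν₂ (σ * R) x) := by
      rw [← lintegral_const_mul' _ _ ENNReal.ofReal_ne_top]
      refine (setLIntegral_mono' hmeas (g := fun x => ENNReal.ofReal C₆ * Fm G a ν₁ ν₂ (σ * R) x)
        fun x hx => ?_).trans (lintegral_mono_set fun x hx => ⟨hx.1, hnear x hx.1 hx.2.1⟩)
      refine (hM m G hsm.gd.memG a ν₁ ν₂ x (σ * R) hON ht0).2 ?_
      refine lc1_away ht0 ?_ (g1 x (hball1 x (hball x hx.1))).2 (by linarith) (hdl0 x)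
      by_contra h2
      have h3 := hball x hx.1
      have h4 := hx.1
      rw [mem_ball, dist_eq_norm] at h4
      have h5 := lc1_zp_le x x₁ hF1.zx
      have h6 := hq1 x (σ * R / 8) htR (by linarith) (by linarith) (by linarith)
      exact absurd hx.2.2 (not_lt.2 h6)
    refine (mul_le_mul' le_rfl h1).trans ?_
    rw [mul_left_comm]
    refine (mul_le_mul' le_rfl hfin).trans_eq ?_
    rw [← mul_assoc, ← ENNReal.ofReal_mul (by linarith)]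
    congr 2
    ring

end Pool.Agent.H35.AN
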